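import Pool.Agent.Q19.UU4

/-!
# Non-commuting numbers of unitriangular groups are not always single polynomials

For `n = 4`, `omega (UU n F)` is at least `q³ + q² - q + 1` in characteristic two and at most
`q³ + q² - q` for `q > 3` odd (see `Pool.Agent.Q19.UU4`).
-/

namespace Pool.Agent.Results.MP_55cbc6_al.NotPolynomialFour

open Pool.Agent.Q19.UU4

/-- It is not true that for every `n ≥ 4` there is a real polynomial `P` whose value at `q` is the
largest size of a non-commuting subset of the group of upper unitriangular `n × n` matrices over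
the field with `q` elements, for all large prime powers `q`. -/
theorem result : ¬ ∀ n : ℕ, 4 ≤ n → ∃ (P : Polynomial ℝ) (q₀ : ℕ),
    ∀ (F : Type) [Field F] [Fintype F], q₀ ≤ Fintype.card F →
      (omega (UU n F) : ℝ) = P.eval (Fintype.card F : ℝ) := by
  intro H
  obtain ⟨P, q₀, h⟩ := H 4 le_rfl
  obtain ⟨F, hF, hFin, h1, h2⟩ := not_polynomial P q₀
  exact h2 (h F h1)

end Pool.Agent.Results.MP_55cbc6_al.NotPolynomialFour
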